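import Pool.Agent.H92.ND.TargetsB

/-!
# IDP: independence of the sections
-/

set_option autoImplicit false

open MvPolynomial SC Pool.Agent.H27.LV Pool.Agent.H84.SM Pool.Agent.H84.ND Pool.Agent.H92.ND

namespace Pool.Agent.H49.ND

theorem idp_sum {k : Type} [Field k] {ι : Type} (S : Finset ι) (f : ι → Polynomial (A3 k))
    (g : Polynomial (A3 k)) (s : Fin 3 → k) (hf : ∀ x ∈ S, ∃ P, f x = g * P ∧ RP s P) :
    ∃ P, ∑ x ∈ S, f x = g * P ∧ RP s P := by
  choose! P hP using hf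
  refine ⟨∑ x ∈ S, P x, ?_, ?_⟩
  · rw [Finset.mul_sum]
    exact Finset.sum_congr rfl fun x hx => (hP x hx).1
  · intro a
    rw [Polynomial.finset_sum_coeff]
    exact Ideal.sum_mem _ fun x hx => (hP x hx).2 a

/-- IDP -/
theorem pf_IDP (hPSL : Pool.Agent.H92.ND.T_PSL) (hPSB : Pool.Agent.H92.ND.T_PSB)
    (hPSO : Pool.Agent.H92.ND.T_PSO) (hIPR : Pool.Agent.H92.ND.T_IPR) :
    Pool.Agent.H92.ND.T_IDP := by
  classical
  intro k _ _ _ G d hd hG hsq T hT l ρ η R D h hdat a i b hb φ hrel s hs j hj1 hji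
  obtain ⟨hsl, hHD, hhη, hh0, hhT⟩ := hdat s hs
  have hG0 : G ≠ 0 := hsq.ne_zero
  have h1 := congrArg (ps G (l s) (R s)) hrel
  rw [map_add, map_sum, map_zero, ← Finset.add_sum_erase T _ hs] at h1
  obtain ⟨P0, hP0, hP0'⟩ := hPSB k G d hG s (ρ s) (R s) (D s) (hT s hs) hHD (l s) a i b hb
  obtain ⟨P1, hP1, hP1'⟩ := idp_sum (T.erase s)
    (fun s' => ps G (l s) (R s) (∑ j ∈ Finset.range i,
      el G d (l s') (h s') (R s') i (j + 1) (φ s' (j + 1)))) (Polynomial.C G ^ i) s (by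
    intro s' hs'
    obtain ⟨hne, hs'T⟩ := Finset.mem_erase.1 hs'
    obtain ⟨-, hHD', hhη', -, hhT'⟩ := hdat s' hs'T
    show ∃ P, ps G (l s) (R s) (∑ j ∈ Finset.range i,
      el G d (l s') (h s') (R s') i (j + 1) (φ s' (j + 1))) = Polynomial.C G ^ i * P ∧ RP s P
    rw [map_sum]
    refine idp_sum _ _ _ _ fun m hm => ?_
    exact hPSO k G d hd hG hsq s s' (ρ s) (ρ s') (η s') (R s) (R s') (D s) (D s') (hT s hs) hHD
      hHD' (l s) (l s') (h s') (φ s' (m + 1)) i (m + 1) (Finset.mem_range.1 hm) hhη'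
      (hhT' s hs hne.symm))
  have hS : ps G (l s) (R s) (∑ j ∈ Finset.range i,
      el G d (l s) (h s) (R s) i (j + 1) (φ s (j + 1))) = Polynomial.C G ^ i *
      ∑ m ∈ Finset.range i, Polynomial.C (φ s (m + 1) * h s ^ (m + 1) *
        un d (l s) (R s) (D s) ^ i) * Polynomial.X ^ (m + 1) := by
    rw [map_sum, Finset.mul_sum]
    refine Finset.sum_congr rfl fun m hm => ?_
    exact hPSL k G d hG s (ρ s) (R s) (D s) hHD (l s) (h s) (φ s (m + 1)) i (m + 1)
      (Finset.mem_range.1 hm)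
  rw [hP0, hS, hP1, ← mul_add, ← mul_add] at h1
  have hC : (Polynomial.C G ^ i : Polynomial (A3 k)) ≠ 0 :=
    pow_ne_zero _ (Polynomial.C_ne_zero.2 hG0)
  have h2 := (mul_eq_zero.1 h1).resolve_left hC
  have h3 := congrArg (fun p => Polynomial.coeff p j) h2
  simp only [Polynomial.coeff_add, Polynomial.coeff_zero, Polynomial.finset_sum_coeff] at h3
  have h4 : ∑ m ∈ Finset.range i, (Polynomial.C (φ s (m + 1) * h s ^ (m + 1) *
      un d (l s) (R s) (D s) ^ i) * Polynomial.X ^ (m + 1)).coeff j =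
      φ s j * h s ^ j * un d (l s) (R s) (D s) ^ i := by
    rw [Finset.sum_eq_single (j - 1)]
    · rw [Polynomial.coeff_C_mul_X_pow, if_pos (by omega)]
      rw [show j - 1 + 1 = j by omega]
    · intro m _ hm
      rw [Polynomial.coeff_C_mul_X_pow, if_neg (by omega)]
    · intro hm
      exact absurd (Finset.mem_range.2 (by omega)) hm
  rw [h4] at h3
  have h5 : h s ^ j * un d (l s) (R s) (D s) ^ i * φ s j ∈ Is s ^ j := by
    have e : h s ^ j * un d (l s) (R s) (D s) ^ i * φ s j = -(P0.coeff j + P1.coeff j) := by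
      linear_combination h3
    rw [e]
    exact (Is s ^ j).neg_mem ((Is s ^ j).add_mem (hP0' j) (hP1' j))
  refine hIPR k s (hT s hs).1 j _ _ ?_ h5
  have hU : eval s (un d (l s) (R s) (D s)) = -(eval s (D s) * s (l s)) := by
    unfold un
    rw [map_sub, map_mul, map_mul, hHD.z, eval_X, mul_zero, zero_sub]
  rw [map_mul, map_pow, map_pow, hU]
  exact mul_ne_zero (pow_ne_zero _ hh0) (pow_ne_zero _ (neg_ne_zero.2 (mul_ne_zero hHD.ne hsl)))

end Pool.Agent.H49.ND
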