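import Pool.Agent.H84.ND.Targets2

/-!
# NB: estimate of the upper bound `ubn`
-/

set_option autoImplicit false

namespace Pool.Agent.H49.ND

open Pool.Agent.H84.ND

theorem nb_toNat (z : ℤ) : ((z.toNat : ℕ) : ℝ) = (z : ℝ) + max (-(z : ℝ)) 0 := by
  rcases le_total 0 z with h | h
  · have h1 : ((z.toNat : ℕ) : ℤ) = z := Int.toNat_of_nonneg h
    have h2 : ((z.toNat : ℕ) : ℝ) = z := by
      exact_mod_cast congrArg (fun w : ℤ => (w : ℝ)) h1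
    have h3 : (0 : ℝ) ≤ z := by exact_mod_cast h
    rw [h2, max_eq_right (by linarith), add_zero]
  · rw [Int.toNat_of_nonpos h]
    have h3 : (z : ℝ) ≤ 0 := by exact_mod_cast h
    rw [max_eq_left (by linarith)]
    simp

theorem nb_step (D v : ℝ) (hD : 0 < D) :
    max (v - D) 0 + (max (v - D) 0) ^ 2 / (2 * D) ≤ (max v 0) ^ 2 / (2 * D) := by
  rcases le_total v D with h | h
  · rw [max_eq_right (by linarith : v - D ≤ 0)]
    have h1 : 0 ≤ (max v 0) ^ 2 / (2 * D) := by positivity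
    simpa using h1
  · rw [max_eq_left (by linarith : (0 : ℝ) ≤ v - D), max_eq_left (by linarith : (0 : ℝ) ≤ v)]
    have h1 : v ^ 2 / (2 * D) - (v - D + (v - D) ^ 2 / (2 * D)) = D / 2 := by
      field_simp
      ring
    linarith

theorem nb_step2 (D v : ℝ) (hD : 0 < D) :
    max (v - 1) 0 + (max (v - 1) 0) ^ 2 / (2 * D) + (max (v - 1) 0) ^ 3 / (6 * D) +
      (max (v - 1) 0) ^ 2 / 2 ≤ (max v 0) ^ 3 / (6 * D) + (max v 0) ^ 2 / 2 := by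
  rcases le_total v 1 with h | h
  · rw [max_eq_right (by linarith : v - 1 ≤ 0)]
    have h1 : 0 ≤ (max v 0) ^ 3 / (6 * D) + (max v 0) ^ 2 / 2 := by positivity
    simpa using h1
  · rw [max_eq_left (by linarith : (0 : ℝ) ≤ v - 1), max_eq_left (by linarith : (0 : ℝ) ≤ v)]
    have h1 : v ^ 3 / (6 * D) + v ^ 2 / 2 - (v - 1 + (v - 1) ^ 2 / (2 * D) +
        (v - 1) ^ 3 / (6 * D) + (v - 1) ^ 2 / 2) = (3 * v - 2) / (6 * D) + 1 / 2 := by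
      field_simp
      ring
    have h2 : 0 ≤ (3 * v - 2) / (6 * D) := div_nonneg (by linarith) (by linarith)
    linarith

theorem nb_jd (d i : ℕ) (hd : 2 ≤ d) (s : ℕ) :
    (jd d i (s : ℤ) : ℝ) ≤ ((d : ℝ) - 1) * i * (i + 1) / 2 - ((i : ℝ) + 1) * (i - s - 1) +
      max ((i : ℝ) - s - 1) 0 + (max ((i : ℝ) - s - 1) 0) ^ 2 / (2 * ((d : ℝ) - 1)) := by
  have hD : 0 < (d : ℝ) - 1 := by
    have : (2 : ℝ) ≤ d := by exact_mod_cast hd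
    linarith
  obtain ⟨D, hDe⟩ : ∃ D, D = (d : ℝ) - 1 := ⟨_, rfl⟩
  obtain ⟨Y, hY⟩ : ∃ Y, Y = (i : ℝ) - s - 1 := ⟨_, rfl⟩
  rw [← hDe] at hD ⊢
  rw [← hY]
  have key : ∀ M : ℕ, (∑ j ∈ Finset.range (M + 1),
      ((((j : ℤ) * ((d : ℤ) - 1) - i + (s : ℤ) + 1).toNat : ℕ) : ℝ)) +
        (max (Y - M * D) 0) ^ 2 / (2 * D) ≤
      D * M * (M + 1) / 2 - (M + 1) * Y + max Y 0 + (max Y 0) ^ 2 / (2 * D) := by
    intro M
    induction M with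
    | zero =>
      rw [zero_add, Finset.sum_range_one, nb_toNat]
      have e1 : (((((0 : ℕ) : ℤ) * ((d : ℤ) - 1) - i + (s : ℤ) + 1 : ℤ)) : ℝ) = - Y := by
        rw [hY]
        push_cast
        ring
      rw [e1, neg_neg, Nat.cast_zero, zero_mul, sub_zero]
      linarith
    | succ M ih =>
      rw [Finset.sum_range_succ, nb_toNat]
      have e1 : (((((M + 1 : ℕ) : ℤ) * ((d : ℤ) - 1) - i + (s : ℤ) + 1 : ℤ)) : ℝ) =
          -(Y - M * D - D) := by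
        rw [hY, hDe]
        push_cast
        ring
      rw [e1, neg_neg]
      have e2 := nb_step D (Y - M * D) hD
      have e3 : Y - ((M + 1 : ℕ) : ℝ) * D = Y - M * D - D := by
        push_cast
        ring
      have e4 : D * ((M + 1 : ℕ) : ℝ) * (((M + 1 : ℕ) : ℝ) + 1) / 2 -
          (((M + 1 : ℕ) : ℝ) + 1) * Y =
          D * M * (M + 1) / 2 - (M + 1) * Y + -(Y - M * D - D) := by
        push_cast
        ring
      rw [e3, e4]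
      linarith
  have h1 := key i
  have h2 : 0 ≤ (max (Y - i * D) 0) ^ 2 / (2 * D) := by positivity
  have h3 : (jd d i (s : ℤ) : ℝ) = ∑ j ∈ Finset.range (i + 1),
      ((((j : ℤ) * ((d : ℤ) - 1) - i + (s : ℤ) + 1).toNat : ℕ) : ℝ) := by
    unfold jd
    rw [Nat.cast_sum]
  rw [h3]
  linarith

theorem nb_ubs (d i : ℕ) (hd : 2 ≤ d) (m : ℕ) :
    (∑ s ∈ Finset.range m, (jd d i (s : ℤ) : ℝ)) +
        (max ((i : ℝ) - m) 0) ^ 3 / (6 * ((d : ℝ) - 1)) + (max ((i : ℝ) - m) 0) ^ 2 / 2 ≤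
      m * (((d : ℝ) - 1) * i * (i + 1) / 2 - ((i : ℝ) ^ 2 - 1)) +
        ((i : ℝ) + 1) * (m * ((m : ℝ) - 1) / 2) +
        (i : ℝ) ^ 3 / (6 * ((d : ℝ) - 1)) + (i : ℝ) ^ 2 / 2 := by
  have hD : 0 < (d : ℝ) - 1 := by
    have : (2 : ℝ) ≤ d := by exact_mod_cast hd
    linarith
  induction m with
  | zero =>
    have hi : (0 : ℝ) ≤ i := Nat.cast_nonneg i
    rw [Finset.range_zero, Finset.sum_empty, Nat.cast_zero, sub_zero, max_eq_left hi]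
    linarith
  | succ m ih =>
    rw [Finset.sum_range_succ]
    have h1 := nb_jd d i hd m
    have h2 := nb_step2 ((d : ℝ) - 1) ((i : ℝ) - m) hD
    have h3 : (i : ℝ) - ((m + 1 : ℕ) : ℝ) = (i : ℝ) - m - 1 := by
      push_cast
      ring
    have h4 : ((m + 1 : ℕ) : ℝ) * (((d : ℝ) - 1) * i * (i + 1) / 2 - ((i : ℝ) ^ 2 - 1)) +
        ((i : ℝ) + 1) * (((m + 1 : ℕ) : ℝ) * (((m + 1 : ℕ) : ℝ) - 1) / 2) =
        m * (((d : ℝ) - 1) * i * (i + 1) / 2 - ((i : ℝ) ^ 2 - 1)) +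
        ((i : ℝ) + 1) * (m * ((m : ℝ) - 1) / 2) +
        (((d : ℝ) - 1) * i * (i + 1) / 2 - ((i : ℝ) + 1) * (i - m - 1)) := by
      push_cast
      ring
    rw [h3, h4]
    linarith

/-- first sum -/
theorem nb_S1 (n N : ℕ) (hN : 1 ≤ N) (hn : n ≤ N) (K : ℕ) (hK : 3 * K ≤ n) :
    ∑ J ∈ Finset.range (K + 1), ((J : ℝ) * ((n : ℝ) - 3 * J) * (n - 2 * J)) ≤
      (n : ℝ) ^ 2 * K ^ 2 / 2 - 5 * n * K ^ 3 / 3 + 3 * K ^ 4 / 2 + 5 * N ^ 2 * K := by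
  have hN' : (1 : ℝ) ≤ N := by exact_mod_cast hN
  have hn' : (n : ℝ) ≤ N := by exact_mod_cast hn
  have hn0 : (0 : ℝ) ≤ n := Nat.cast_nonneg n
  induction K with
  | zero => simp
  | succ K ih =>
    rw [Finset.sum_range_succ]
    have h1 := ih (by omega)
    have hK' : 3 * ((K : ℝ) + 1) ≤ n := by exact_mod_cast hK
    have hK0 : (0 : ℝ) ≤ K := Nat.cast_nonneg K
    push_cast
    obtain ⟨x, hx⟩ : ∃ x, x = (K : ℝ) + 1 := ⟨_, rfl⟩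
    have hKx : (K : ℝ) = x - 1 := by linarith
    rw [hKx] at h1 ⊢
    rw [← hx] at hK'
    have hx0 : 1 ≤ x := by linarith
    have h2 : (n : ℝ) ^ 2 * (x - 1 + 1) ^ 2 / 2 - 5 * n * (x - 1 + 1) ^ 3 / 3 +
        3 * (x - 1 + 1) ^ 4 / 2 + 5 * N ^ 2 * (x - 1 + 1) =
        (n : ℝ) ^ 2 * (x - 1) ^ 2 / 2 - 5 * n * (x - 1) ^ 3 / 3 + 3 * (x - 1) ^ 4 / 2 +
        5 * N ^ 2 * (x - 1) + (x - 1 + 1) * ((n : ℝ) - 3 * (x - 1 + 1)) * (n - 2 * (x - 1 + 1)) +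
        (5 * (N : ℝ) ^ 2 - (n : ℝ) ^ 2 / 2 + 5 * n * x - 9 * x ^ 2 - 5 * n / 3 + 6 * x - 3 / 2) := by
      ring
    rw [h2]
    have h3 : (n : ℝ) ^ 2 ≤ N ^ 2 := pow_le_pow_left₀ hn0 hn' 2
    have h4 : 9 * x ^ 2 ≤ (n : ℝ) ^ 2 := by nlinarith
    have h5 : (n : ℝ) ≤ N ^ 2 := by nlinarith
    have h6 : (1 : ℝ) ≤ N ^ 2 := by nlinarith
    have h7 : 0 ≤ (n : ℝ) * x := by positivity
    linarith

/-- second sum -/
theorem nb_S2 (n K : ℕ) (hK : 3 * K ≤ n) :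
    ∑ J ∈ Finset.range (K + 1), ((n : ℝ) - 3 * J) ^ 3 ≤
      (n : ℝ) ^ 3 + ((n : ℝ) ^ 4 - ((n : ℝ) - 3 * K) ^ 4) / 12 := by
  induction K with
  | zero => simp
  | succ K ih =>
    rw [Finset.sum_range_succ]
    have h1 := ih (by omega)
    have hK' : 3 * ((K : ℝ) + 1) ≤ n := by exact_mod_cast hK
    push_cast
    obtain ⟨y, hy⟩ : ∃ y, y = (n : ℝ) - 3 * (K + 1) := ⟨_, rfl⟩
    have hy0 : 0 ≤ y := by linarith
    have hy3 : (n : ℝ) - 3 * K = y + 3 := by linarith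
    rw [hy3] at h1
    rw [← hy]
    have h2 : (y + 3) ^ 4 = y ^ 4 + 12 * y ^ 3 + 54 * y ^ 2 + 108 * y + 81 := by ring
    rw [h2] at h1
    have h3 : 0 ≤ y ^ 2 := by positivity
    linarith

theorem nb_G (n K : ℕ) (hK : 3 * K ≤ n) :
    (n : ℝ) ^ 2 * K ^ 2 / 2 - 5 * n * K ^ 3 / 3 + 3 * (K : ℝ) ^ 4 / 2 ≤ (n : ℝ) ^ 4 / 81 := by
  have hK' : 3 * (K : ℝ) ≤ n := by exact_mod_cast hK
  have hK0 : (0 : ℝ) ≤ K := Nat.cast_nonneg K
  have h1 : (n : ℝ) ^ 4 / 81 - ((n : ℝ) ^ 2 * K ^ 2 / 2 - 5 * n * K ^ 3 / 3 +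
      3 * (K : ℝ) ^ 4 / 2) = ((n : ℝ) - 3 * K) ^ 2 *
        (2 * (n : ℝ) ^ 2 + 4 * n * (3 * K) - 3 * (3 * K) ^ 2) / 162 := by ring
  have h2 : 0 ≤ 2 * (n : ℝ) ^ 2 + 4 * n * (3 * K) - 3 * (3 * K) ^ 2 := by nlinarith
  have h3 : 0 ≤ ((n : ℝ) - 3 * K) ^ 2 *
        (2 * (n : ℝ) ^ 2 + 4 * n * (3 * K) - 3 * (3 * K) ^ 2) / 162 := by positivity
  linarith

/-- NB -/
theorem pf_NB : T_NB := by
  intro d hd
  have hd' : (10 : ℝ) ≤ d := by exact_mod_cast hd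
  obtain ⟨a, ha⟩ : ∃ a, a = (d : ℝ) - 3 := ⟨_, rfl⟩
  obtain ⟨b, hb⟩ : ∃ b, b = (d : ℝ) + 1 := ⟨_, rfl⟩
  obtain ⟨D, hDe⟩ : ∃ D, D = (d : ℝ) - 1 := ⟨_, rfl⟩
  have ha0 : 0 ≤ a := by rw [ha]; linarith
  have hb0 : 0 ≤ b := by rw [hb]; linarith
  have hD9 : 9 ≤ D := by rw [hDe]; linarith
  have hD0 : 0 < D := by linarith
  obtain ⟨R, hR⟩ : ∃ R, R = b * a / 2 + a * D / 2 + a + b * D / 2 + b + a ^ 2 / 2 + a * b +
    b ^ 2 / 2 + a * b + b ^ 2 / 2 + 1 / 2 := ⟨_, rfl⟩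
  have hR0 : 0 ≤ R := by
    rw [hR]
    positivity
  refine ⟨5 * a ^ 2 / 2 + 1 + 2 * R, ?_⟩
  intro N n τ hN hn hτ hτd
  have hN' : (1 : ℝ) ≤ N := by exact_mod_cast hN
  have hn' : (n : ℝ) ≤ N := by exact_mod_cast hn
  have hn0 : (0 : ℝ) ≤ n := Nat.cast_nonneg n
  have hNN : (N : ℝ) ≤ N ^ 2 := by nlinarith
  have hNN1 : (1 : ℝ) ≤ N ^ 2 := by nlinarith
  have hτ' : (0 : ℝ) ≤ τ := by exact_mod_cast hτ
  have hτd' : (τ : ℝ) ≤ d := by exact_mod_cast hτd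
  -- one summand
  have hterm : ∀ J ∈ Finset.range (n / 3 + 1),
      ((ubs d (n - 3 * J) (τ + ((d : ℤ) - 3) * J) : ℕ) : ℝ) ≤
        a ^ 2 / 2 * ((J : ℝ) * ((n : ℝ) - 3 * J) * (n - 2 * J)) +
          ((n : ℝ) - 3 * J) ^ 3 / (6 * D) + R * N ^ 2 := by
    intro J hJ
    have hJ3 : 3 * J ≤ n := by
      have := Finset.mem_range.1 hJ
      omega
    obtain ⟨i, hi⟩ : ∃ i, i = n - 3 * J := ⟨_, rfl⟩
    have hiR : (i : ℝ) = (n : ℝ) - 3 * J := by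
      rw [hi, Nat.cast_sub hJ3]
      push_cast
      ring
    rw [← hi, ← hiR]
    have hi0 : (0 : ℝ) ≤ i := Nat.cast_nonneg i
    have hJ0 : (0 : ℝ) ≤ J := Nat.cast_nonneg J
    have hJ3' : 3 * (J : ℝ) ≤ n := by exact_mod_cast hJ3
    have hiN : (i : ℝ) ≤ N := by linarith
    have hJN : (J : ℝ) ≤ N := by linarith
    obtain ⟨m, hm⟩ : ∃ m, m = (τ + ((d : ℤ) - 3) * J + 1).toNat := ⟨_, rfl⟩
    have hnn : 0 ≤ τ + ((d : ℤ) - 3) * J + 1 := by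
      have h1 : (0 : ℤ) ≤ (d : ℤ) - 3 := by
        have : (10 : ℤ) ≤ d := by exact_mod_cast hd
        linarith
      have h2 : (0 : ℤ) ≤ ((d : ℤ) - 3) * J := mul_nonneg h1 (Int.natCast_nonneg J)
      linarith
    have hmR : (m : ℝ) = (τ : ℝ) + a * J + 1 := by
      have h1 : ((m : ℕ) : ℤ) = τ + ((d : ℤ) - 3) * J + 1 := by
        rw [hm]
        exact Int.toNat_of_nonneg hnn
      have h2 : ((m : ℕ) : ℝ) = ((τ + ((d : ℤ) - 3) * J + 1 : ℤ) : ℝ) := by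
        rw [← h1]
        push_cast
        rfl
      rw [h2, ha]
      push_cast
      ring
    have h1 := nb_ubs d i (by omega) m
    have h2 : 0 ≤ (max ((i : ℝ) - m) 0) ^ 3 / (6 * ((d : ℝ) - 1)) +
        (max ((i : ℝ) - m) 0) ^ 2 / 2 := by
      have : 0 < (d : ℝ) - 1 := by linarith
      positivity
    have h3 : ((ubs d i (τ + ((d : ℤ) - 3) * J) : ℕ) : ℝ) =
        ∑ s ∈ Finset.range m, (jd d i (s : ℤ) : ℝ) := by
      unfold ubs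
      rw [← hm, Nat.cast_sum]
    rw [h3]
    have hDa : D = a + 2 := by rw [hDe, ha]; ring
    have h4 : (m : ℝ) * (((d : ℝ) - 1) * i * (i + 1) / 2 - ((i : ℝ) ^ 2 - 1)) ≤
        (a * J + b) * (a * (i : ℝ) ^ 2 / 2 + D * i / 2 + 1) := by
      have e1 : ((d : ℝ) - 1) * i * (i + 1) / 2 - ((i : ℝ) ^ 2 - 1) =
          a * (i : ℝ) ^ 2 / 2 + D * i / 2 + 1 := by
        rw [← hDe, hDa]
        ring
      rw [e1]
      apply mul_le_mul_of_nonneg_right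
      · rw [hmR, hb]
        linarith
      · positivity
    have h5 : ((i : ℝ) + 1) * (m * ((m : ℝ) - 1) / 2) ≤ ((i : ℝ) + 1) * ((a * J + b) ^ 2 / 2) := by
      apply mul_le_mul_of_nonneg_left _ (by linarith)
      have e1 : (m : ℝ) ≤ a * J + b := by
        rw [hmR, hb]
        linarith
      have e2 : 0 ≤ (m : ℝ) - 1 := by
        rw [hmR]
        have : 0 ≤ a * (J : ℝ) := by positivity
        linarith
      have e3 : (m : ℝ) * ((m : ℝ) - 1) ≤ (a * J + b) * (a * J + b) :=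
        mul_le_mul e1 (by linarith) e2 (by positivity)
      have e4 : (a * (J : ℝ) + b) ^ 2 = (a * J + b) * (a * J + b) := by ring
      rw [e4]
      linarith
    have h6 : (a * (J : ℝ) + b) * (a * (i : ℝ) ^ 2 / 2 + D * i / 2 + 1) +
        ((i : ℝ) + 1) * ((a * J + b) ^ 2 / 2) + (i : ℝ) ^ 2 / 2 ≤
        a ^ 2 / 2 * ((J : ℝ) * i * (n - 2 * J)) + R * N ^ 2 := by
      have hnJ : (n : ℝ) - 2 * J = i + J := by rw [hiR]; ring
      rw [hnJ]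
      have m1 : (i : ℝ) ^ 2 ≤ N ^ 2 := pow_le_pow_left₀ hi0 hiN 2
      have m2 : (J : ℝ) ^ 2 ≤ N ^ 2 := pow_le_pow_left₀ hJ0 hJN 2
      have m3 : (J : ℝ) * i ≤ N ^ 2 := by
        rw [pow_two]
        exact mul_le_mul hJN hiN hi0 (by linarith)
      have m4 : (J : ℝ) ≤ N ^ 2 := hJN.trans hNN
      have m5 : (i : ℝ) ≤ N ^ 2 := hiN.trans hNN
      have q1 := mul_le_mul_of_nonneg_left m1 (by positivity : 0 ≤ b * a / 2)
      have q2 := mul_le_mul_of_nonneg_left m3 (by positivity : 0 ≤ a * D / 2)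
      have q3 := mul_le_mul_of_nonneg_left m4 ha0
      have q4 := mul_le_mul_of_nonneg_left m5 (by positivity : 0 ≤ b * D / 2)
      have q5 := mul_le_mul_of_nonneg_left hNN1 hb0
      have q6 := mul_le_mul_of_nonneg_left m2 (by positivity : 0 ≤ a ^ 2 / 2)
      have q7 := mul_le_mul_of_nonneg_left m4 (by positivity : 0 ≤ a * b)
      have q8 := mul_le_mul_of_nonneg_left hNN1 (by positivity : 0 ≤ b ^ 2 / 2)
      have q9 := mul_le_mul_of_nonneg_left m3 (by positivity : 0 ≤ a * b)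
      have q10 := mul_le_mul_of_nonneg_left m5 (by positivity : 0 ≤ b ^ 2 / 2)
      rw [hR]
      have e : (a * (J : ℝ) + b) * (a * (i : ℝ) ^ 2 / 2 + D * i / 2 + 1) +
        ((i : ℝ) + 1) * ((a * J + b) ^ 2 / 2) + (i : ℝ) ^ 2 / 2 =
        a ^ 2 / 2 * ((J : ℝ) * i * (i + J)) + (b * a / 2 * (i : ℝ) ^ 2 + a * D / 2 * (J * i) +
          a * J + b * D / 2 * i + b * 1 + a ^ 2 / 2 * (J : ℝ) ^ 2 + a * b * J + b ^ 2 / 2 * 1 +
          a * b * (J * i) + b ^ 2 / 2 * i + (i : ℝ) ^ 2 / 2) := by ring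
      rw [e]
      linarith
    rw [← hDe] at h1 h2 h4
    linarith
  have hsum := Finset.sum_le_sum hterm
  rw [Finset.sum_add_distrib, Finset.sum_add_distrib, ← Finset.mul_sum, ← Finset.sum_div,
    Finset.sum_const, Finset.card_range, nsmul_eq_mul] at hsum
  have hubn : (ubn d n τ : ℝ) = ∑ J ∈ Finset.range (n / 3 + 1),
      ((ubs d (n - 3 * J) (τ + ((d : ℤ) - 3) * J) : ℕ) : ℝ) := by
    unfold ubn
    rw [Nat.cast_sum]
  rw [hubn]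
  refine hsum.trans ?_
  obtain ⟨K, hK⟩ : ∃ K, K = n / 3 := ⟨_, rfl⟩
  rw [← hK]
  have hK3 : 3 * K ≤ n := by omega
  have hKN : (K : ℝ) ≤ N := by
    have : K ≤ N := by omega
    exact_mod_cast this
  have hK0 : (0 : ℝ) ≤ K := Nat.cast_nonneg K
  have s1 := (nb_S1 n N hN hn K hK3).trans (add_le_add_left (nb_G n K hK3) _)
  have s2 := nb_S2 n K hK3
  have s3 : 0 ≤ ((n : ℝ) - 3 * K) ^ 4 := by positivity
  have n4 : (n : ℝ) ^ 4 ≤ N ^ 4 := pow_le_pow_left₀ hn0 hn' 4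
  have n3 : (n : ℝ) ^ 3 ≤ N ^ 3 := pow_le_pow_left₀ hn0 hn' 3
  have t1 : a ^ 2 / 2 * ∑ J ∈ Finset.range (K + 1),
      ((J : ℝ) * ((n : ℝ) - 3 * J) * (n - 2 * J)) ≤
      a ^ 2 / 2 * ((N : ℝ) ^ 4 / 81 + 5 * N ^ 3) := by
    apply mul_le_mul_of_nonneg_left _ (by positivity)
    have e1 : (N : ℝ) ^ 2 * K ≤ N ^ 2 * N := mul_le_mul_of_nonneg_left hKN (by positivity)
    have e2 : (N : ℝ) ^ 3 = N ^ 2 * N := by ring
    rw [e2]
    linarith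
  have t2 : (∑ J ∈ Finset.range (K + 1), ((n : ℝ) - 3 * J) ^ 3) / (6 * D) ≤
      (N : ℝ) ^ 4 / 648 + N ^ 3 := by
    rw [div_le_iff₀ (by linarith)]
    have e1 : 54 * ((N : ℝ) ^ 4 / 648 + N ^ 3) ≤ ((N : ℝ) ^ 4 / 648 + N ^ 3) * (6 * D) := by
      have : 0 ≤ (N : ℝ) ^ 4 / 648 + N ^ 3 := by positivity
      nlinarith
    have e3 : (0 : ℝ) ≤ N ^ 3 := by positivity
    linarith
  have t3 : ((K + 1 : ℕ) : ℝ) * (R * N ^ 2) ≤ 2 * R * N ^ 3 := by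
    have e1 : ((K + 1 : ℕ) : ℝ) ≤ 2 * N := by
      push_cast
      linarith
    have e2 := mul_le_mul_of_nonneg_right e1 (by positivity : 0 ≤ R * (N : ℝ) ^ 2)
    have e3 : 2 * (N : ℝ) * (R * N ^ 2) = 2 * R * N ^ 3 := by ring
    rw [e3] at e2
    exact e2
  have fin : (4 * ((d : ℝ) - 3) ^ 2 + 1) / 648 * (N : ℝ) ^ 4 +
      (5 * a ^ 2 / 2 + 1 + 2 * R) * (N : ℝ) ^ 3 =
      a ^ 2 / 2 * ((N : ℝ) ^ 4 / 81 + 5 * N ^ 3) + ((N : ℝ) ^ 4 / 648 + N ^ 3) +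
        2 * R * N ^ 3 := by
    rw [← ha]
    ring
  rw [fin]
  linarith

end Pool.Agent.H49.ND
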