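import Pool.Agent.H92.ND.TargetsB

/-!
# RPM: products
-/

set_option autoImplicit false

open MvPolynomial SC Pool.Agent.H27.LV Pool.Agent.H84.SM Pool.Agent.H84.ND Pool.Agent.H92.ND

namespace Pool.Agent.H49.ND

/-- RPM -/
theorem pf_RPM : Pool.Agent.H92.ND.T_RPM := by
  intro k _ s
  refine ⟨fun P Q hP hQ => ⟨fun a => ?_, fun a => ?_⟩, fun f a => ?_, fun f hf a => ?_⟩
  · rw [Polynomial.coeff_add]
    exact (Is s ^ a).add_mem (hP a) (hQ a)
  · rw [Polynomial.coeff_mul]
    refine Ideal.sum_mem _ fun x hx => ?_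
    rw [← Finset.HasAntidiagonal.mem_antidiagonal.1 hx, pow_add]
    exact Ideal.mul_mem_mul (hP _) (hQ _)
  · rw [Polynomial.coeff_C]
    split_ifs with h
    · rw [h, pow_zero, Ideal.one_eq_top]
      exact Submodule.mem_top
    · exact Ideal.zero_mem _
  · cases a with
    | zero =>
      rw [Polynomial.coeff_X_mul_zero]
      exact Ideal.zero_mem _
    | succ a =>
      rw [Polynomial.coeff_X_mul, Polynomial.coeff_C]
      split_ifs with h
      · rw [h, zero_add, pow_one]
        exact hf
      · exact Ideal.zero_mem _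

end Pool.Agent.H49.ND
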